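import Pool.Agent.Helper63.TD.Geo

/-!
# The invariant form; reflections
-/

set_option autoImplicit false

namespace Pool.Agent.Helper3.LR

open Pool.Agent.Helper63.TD CoxeterSystem

variable {S : Type} {M : CoxeterMatrix S} {W : Type} [Group W] (C : CoxeterSystem M W)

/-- The invariant form. -/
noncomputable def Bf (M : CoxeterMatrix S) : (S →₀ ℝ) →ₗ[ℝ] (S →₀ ℝ) →ₗ[ℝ] ℝ :=
  Finsupp.lsum ℝ fun s => (LinearMap.lsmul ℝ ((S →₀ ℝ) →ₗ[ℝ] ℝ)).flip (bil M s)

theorem Bf_single (s : S) (r : ℝ) (v : S →₀ ℝ) : Bf M (Finsupp.single s r) v = r * bil M s v := by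
  simp [Bf]

theorem Bf_symm (u v : S →₀ ℝ) : Bf M u v = Bf M v u := by
  induction u using Finsupp.induction_linear with
  | zero => simp
  | add f g hf hg => rw [map_add, LinearMap.add_apply, hf, hg, map_add]
  | single s a =>
    induction v using Finsupp.induction_linear with
    | zero => simp
    | add f g hf hg => rw [map_add, hf, hg, map_add, LinearMap.add_apply]
    | single t b =>
      rw [Bf_single, Bf_single, bil_single, bil_single, M.symmetric]
      ring

theorem Bf_right (s : S) (v : S →₀ ℝ) : Bf M v (Finsupp.single s 1) = bil M s v := by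
  rw [Bf_symm, Bf_single, one_mul]

theorem Bf_act (w : W) (u v : S →₀ ℝ) : Bf M (act C w u) (act C w v) = Bf M u v := by
  induction w using C.simple_induction_left generalizing u v with
  | one => rw [act_one, act_one]
  | mul_simple_left w i ih =>
    have key : ∀ u v, Bf M (act C (C.simple i) u) (act C (C.simple i) v) = Bf M u v := by
      intro u v
      have h1 : bil M i (Finsupp.single i (1 : ℝ)) = 1 := by
        rw [bil_single, M.diagonal, cl_one]
        ring
      rw [act_simple, act_simple]
      simp only [map_sub, map_smul, LinearMap.sub_apply, LinearMap.smul_apply, Bf_right, smul_eq_mul,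
        Bf_single, one_mul, h1]
      ring
    rw [act_mul, act_mul, key, ih]

theorem bil_self (s : S) : bil M s (Finsupp.single s (1 : ℝ)) = 1 := by
  rw [bil_single, M.diagonal, cl_one]
  ring

theorem Bf_root (w : W) (s : S) : Bf M (root C w s) (root C w s) = 1 := by
  rw [root, Bf_act, Bf_single, bil_self, one_mul]

theorem act_inv_act (w : W) (v : S →₀ ℝ) : act C w⁻¹ (act C w v) = v := by
  rw [← act_mul, inv_mul_cancel, act_one]

theorem act_act_inv (w : W) (v : S →₀ ℝ) : act C w (act C w⁻¹ v) = v := by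
  rw [← act_mul, mul_inv_cancel, act_one]

theorem act_root (v w : W) (s : S) : act C v (root C w s) = root C (v * w) s :=
  (act_mul C v w _).symm

/-- The reflection in a root. -/
theorem act_refl (w : W) (s : S) (v : S →₀ ℝ) :
    act C (w * C.simple s * w⁻¹) v = v - (2 * Bf M (root C w s) v) • root C w s := by
  rw [act_mul, act_mul_simple, act_act_inv, ← Bf_right]
  congr 3
  rw [← Bf_act C w (act C w⁻¹ v), act_act_inv, Bf_symm]
  rfl

/-- The geometric representation is faithful. -/
theorem eq_one_of_act {w : W} (h : ∀ v, act C w v = v) : w = 1 := by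
  by_contra hw
  obtain ⟨t, ht⟩ := C.exists_rightDescent_of_ne_one hw
  have h1 := root_nonpos C ht
  rw [root, h] at h1
  have := h1 t
  simp only [Finsupp.single_eq_same, Finsupp.coe_zero, Pi.zero_apply] at this
  linarith

theorem eq_of_act {w w' : W} (h : ∀ v, act C w v = act C w' v) : w = w' := by
  have := eq_one_of_act C (w := w'⁻¹ * w) fun v => by rw [act_mul, h, act_inv_act]
  rw [inv_mul_eq_one] at this
  exact this.symm

/-- Proportional roots. -/
theorem refl_eq {w w' : W} {s t : S} {r : ℝ} (h : root C w s = r • root C w' t) :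
    (r = 1 ∨ r = -1) ∧ w * C.simple s * w⁻¹ = w' * C.simple t * w'⁻¹ := by
  have h1 := Bf_root C w s
  rw [h] at h1
  simp only [map_smul, LinearMap.smul_apply, smul_eq_mul, Bf_root, mul_one] at h1
  have h2 : r = 1 ∨ r = -1 := by
    have : (r - 1) * (r + 1) = 0 := by ring_nf; nlinarith
    rcases mul_eq_zero.1 this with h3 | h3
    · left; linarith
    · right; linarith
  refine ⟨h2, eq_of_act C fun v => ?_⟩
  rw [act_refl, act_refl, h]
  rcases h2 with rfl | rfl
  · simp
  · simp

/-- The roots. -/
def IsRoot (v : S →₀ ℝ) : Prop := ∃ w s, v = root C w s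

theorem isRoot_root (w : W) (s : S) : IsRoot C (root C w s) := ⟨w, s, rfl⟩

theorem isRoot_single (s : S) : IsRoot C (Finsupp.single s 1) := ⟨1, s, (root_one C s).symm⟩

theorem IsRoot.act {v : S →₀ ℝ} (h : IsRoot C v) (w : W) : IsRoot C (act C w v) := by
  obtain ⟨u, s, rfl⟩ := h
  exact ⟨w * u, s, act_root C w u s⟩

theorem IsRoot.neg {v : S →₀ ℝ} (h : IsRoot C v) : IsRoot C (-v) := by
  obtain ⟨u, s, rfl⟩ := h
  exact ⟨u * C.simple s, s, (root_mul_simple_self C u s).symm⟩

theorem IsRoot.ne_zero {v : S →₀ ℝ} (h : IsRoot C v) : v ≠ 0 := by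
  obtain ⟨u, s, rfl⟩ := h
  exact root_ne_zero C u s

theorem IsRoot.sign {v : S →₀ ℝ} (h : IsRoot C v) : 0 ≤ v ∨ v ≤ 0 := by
  obtain ⟨u, s, rfl⟩ := h
  by_cases h : C.IsRightDescent u s
  · exact Or.inr (root_nonpos C h)
  · exact Or.inl (root_nonneg C h)

theorem IsRoot.not_nonneg {v : S →₀ ℝ} (h : IsRoot C v) : ¬ 0 ≤ v ↔ v ≤ 0 := by
  refine ⟨fun h1 => (h.sign).resolve_left h1, fun h1 h2 => h.ne_zero C (le_antisymm h1 h2)⟩

/-- A nonnegative root which is nonnegative multiple of a simple root. -/
theorem IsRoot.eq_single {v : S →₀ ℝ} (h : IsRoot C v) (h0 : 0 ≤ v) {s : S}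
    (hs : ∀ t, t ≠ s → v t = 0) : v = Finsupp.single s 1 := by
  obtain ⟨w, t, rfl⟩ := h
  have h1 : root C w t = (root C w t s) • root C 1 s := by
    rw [root_one]
    ext u
    by_cases hu : u = s
    · subst hu
      simp
    · rw [hs u hu]
      simp [Finsupp.single_apply, Ne.symm hu]
  obtain ⟨h2, -⟩ := refl_eq C h1
  have h3 := h0 s
  simp only [Finsupp.coe_zero, Pi.zero_apply] at h3
  rcases h2 with h2 | h2
  · rw [h2, one_smul, root_one] at h1
    exact h1
  · rw [h2] at h3
    linarith

/-- A simple reflection permutes the positive roots different from the simple root. -/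
theorem IsRoot.simple_nonneg {v : S →₀ ℝ} (h : IsRoot C v) (h0 : 0 ≤ v) {s : S}
    (hs : v ≠ Finsupp.single s 1) : 0 ≤ Pool.Agent.Helper63.TD.act C (C.simple s) v := by
  rcases (h.act C (C.simple s)).sign with h1 | h1
  · exact h1
  · exfalso
    apply hs
    refine h.eq_single C h0 fun t ht => ?_
    have h2 := h1 t
    rw [act_simple] at h2
    simp [Finsupp.single_apply, Ne.symm ht] at h2
    exact le_antisymm h2 (h0 t)

/-- The reflection in a root which becomes simple. -/
theorem eq_mul_of_act {m : W} {s t : S} (h : act C m (Finsupp.single s 1) = Finsupp.single t 1) :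
    m * C.simple s = C.simple t * m := by
  have h1 : root C m s = (1 : ℝ) • root C 1 t := by
    rw [one_smul, root_one]
    exact h
  have h2 := (refl_eq C h1).2
  rw [one_mul, inv_one, mul_one, mul_inv_eq_iff_eq_mul] at h2
  exact h2

end Pool.Agent.Helper3.LR
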